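import Pool.Agent.helper37.NE.SpecC

/-!
# Row ne:YNF (MP_baa4d7_al): the chain sum
-/

set_option autoImplicit false

namespace Pool.Agent.NE

open Pool.Agent.helper58.DC Pool.Agent.DI Pool.Agent.GR Pool.Agent.OB Pool.Agent.DR Pool.Agent.FI Pool.Agent.FI3 Pool.Agent.FI4 Pool.Agent.FI4I Pool.Agent.LE Pool.Agent.L5 Pool.Agent.NAB Pool.Agent.ND

theorem YNF_comm {α β : Type} [Finite α] [Finite β] (S : Set α) (f : α → β → ℂ) :
    ∑ᶠ a ∈ S, ∑ᶠ b, f a b = ∑ᶠ b, ∑ᶠ a ∈ S, f a b := by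
  have := finsum_mem_comm f (Set.toFinite S) (Set.finite_univ (α := β))
  simpa only [finsum_mem_univ] using this

theorem YNF_cast {α : Type} [Finite α] (S : Set α) (f : α → ℤ) :
    ((∑ᶠ a ∈ S, f a : ℤ) : ℂ) = ∑ᶠ a ∈ S, (f a : ℂ) := by
  classical
  have hf : S.Finite := Set.toFinite S
  rw [finsum_mem_eq_finite_toFinset_sum _ hf, finsum_mem_eq_finite_toFinset_sum _ hf, Int.cast_sum]

theorem YNF (hYNL : YNL_stmt) (hYTG : YTG_stmt) (hNEG : Pool.Agent.NAB.NEG_stmt) : YNF_stmt := by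
  classical
  intro p e m M hM h1 h2 G _ _ G₀ hG₀ χ₀ hχ₀ z x hU d
  have : Fact p.Prime := ⟨hM.pr⟩
  have he : 1 ≤ e := by omega
  have key : ∀ E' K : Subgroup G, hE p e m M G₀ χ₀ d E' K ≠ 0 → E' ≤ K ⊓ G₀ ∧ IsPGroup p E' ∧ E' ≠ ⊥ := by
    intro E' K h0
    unfold hE at h0
    by_cases h3 : K ⊔ G₀ = ⊤
    · rw [if_pos h3] at h0
      have h4 : {η : G → ℂ | η ∈ BE p e m M G₀ (K ⊓ G₀) E' χ₀ ∧ Defect p (K ⊓ G₀) η d ∧ ∀ κ ∈ K, cjF κ η = η}.Nonempty := by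
        rw [Set.nonempty_iff_ne_empty]
        intro h5
        apply h0
        rw [h5, Set.ncard_empty, Nat.cast_zero, mul_zero]
      obtain ⟨η, ⟨-, -, z', x', hU', hE'⟩, -⟩ := h4
      obtain ⟨-, n2, -, -, -, ⟨n6, n7⟩, -⟩ := hNEG p e hM.pr G z'
      rw [← hE']
      exact ⟨n2 _ hU'.zm, n6 hU'.pe, (n7 he hU'.od).1⟩
    · rw [if_neg h3] at h0
      exact absurd rfl h0
  have h3 : ((cSum p G₀ ⊥ ⊤ (hB p M G₀ χ₀ d) : ℤ) : ℂ) =
      ∑ᶠ C ∈ {C : Finset (Subgroup G) | PCh p G₀ ⊥ C}, ∑ᶠ E' : Subgroup G, (-1 : ℂ) ^ (C.card + 1) * hE p e m M G₀ χ₀ d E' (nrm C ⊓ nz E') := by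
    unfold cSum
    rw [YNF_cast]
    refine finsum_mem_congr rfl fun C _ => ?_
    rw [← mul_finsum, ← hYNL p e m M hM h1 h2 G G₀ hG₀ χ₀ hχ₀ z x hU d (nrm C), top_inf_eq]
    push_cast
    rfl
  have h4 : ∀ E' : Subgroup G,
      ∑ᶠ C ∈ {C : Finset (Subgroup G) | PCh p G₀ ⊥ C}, (-1 : ℂ) ^ (C.card + 1) * hE p e m M G₀ χ₀ d E' (nrm C ⊓ nz E') = 0 := by
    intro E'
    by_cases hz : ∃ K : Subgroup G, hE p e m M G₀ χ₀ d E' K ≠ 0
    · obtain ⟨K, hK⟩ := hz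
      obtain ⟨k1, k2, k3⟩ := key E' K hK
      have h5 := hYTG G p G₀ ⊥ E' (hE p e m M G₀ χ₀ d E') k2 (k1.trans inf_le_right) (fun h => k3 (eq_bot_iff.2 h))
      rw [← h5, finsum_mem_def, finsum_mem_def]
      refine finsum_congr fun C => ?_
      simp only [Set.indicator_apply, Set.mem_ofPred_eq]
      by_cases hP : PCh p G₀ ⊥ C
      · by_cases hEn : E' ≤ nrm C
        · rw [if_pos hP, if_pos ⟨hP, hEn⟩, inf_comm]
        · rw [if_pos hP, if_neg (fun h => hEn h.2)]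
          have h7 : hE p e m M G₀ χ₀ d E' (nrm C ⊓ nz E') = 0 := by
            by_contra h8
            exact hEn (((key E' _ h8).1.trans inf_le_left).trans inf_le_left)
          rw [h7, mul_zero]
      · rw [if_neg hP, if_neg (fun h => hP h.1)]
    · have h5 : ∀ C ∈ {C : Finset (Subgroup G) | PCh p G₀ ⊥ C}, (-1 : ℂ) ^ (C.card + 1) * hE p e m M G₀ χ₀ d E' (nrm C ⊓ nz E') = (fun _ => (0 : ℂ)) C := by
        intro C _
        have h6 : hE p e m M G₀ χ₀ d E' (nrm C ⊓ nz E') = 0 := by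
          by_contra h7
          exact hz ⟨_, h7⟩
        rw [h6, mul_zero]
      rw [finsum_mem_congr rfl h5]
      simp
  have h5 : ((cSum p G₀ ⊥ ⊤ (hB p M G₀ χ₀ d) : ℤ) : ℂ) = 0 := by
    rw [h3, YNF_comm, finsum_congr h4, finsum_zero]
  exact_mod_cast h5

end Pool.Agent.NE
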